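import Mathlib

set_option autoImplicit false

/-!
MP_169871: popular `2A - 2A` with exponent 2 (paper proof: /team-store/H18_POP.md). The elementary
analysis: steps 1, 5, 6, 7. Everything is stated for functions on a finite additive group.
-/

namespace Pool.H15.PP

open Finset

variable {G : Type*} [Fintype G] [AddCommGroup G]

/-- `ψ(t) = ∑ P(y) min(log r(y), t)`, `r = |G| P`. -/
noncomputable def psi (P : G → ℝ) (t : ℝ) : ℝ :=
  ∑ y, P y * min (Real.log (Fintype.card G * P y)) t

/-- The truncated log density. -/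
noncomputable def aa (P : G → ℝ) (b t : ℝ) (y : G) : ℝ :=
  Real.log (min (max (Fintype.card G * P y) (Real.exp (-b))) (Real.exp t))

/-- `S(x) = |G| ∑ P(y) P(x - y)`. -/
noncomputable def SS (P : G → ℝ) (x : G) : ℝ := Fintype.card G * ∑ y, P y * P (x - y)

theorem clamp_pos (r b t : ℝ) : 0 < min (max r (Real.exp (-b))) (Real.exp t) :=
  lt_min (lt_of_lt_of_le (Real.exp_pos _) (le_max_right _ _)) (Real.exp_pos _)

theorem exp_aa (P : G → ℝ) (b t : ℝ) (y : G) :
    Real.exp (aa P b t y) = min (max (Fintype.card G * P y) (Real.exp (-b))) (Real.exp t) := by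
  unfold aa
  rw [Real.exp_log (clamp_pos _ _ _)]

theorem aa_le (P : G → ℝ) (b t : ℝ) (y : G) : aa P b t y ≤ t := by
  unfold aa
  rw [Real.log_le_iff_le_exp (clamp_pos _ _ _)]
  exact min_le_right _ _

theorem aa_ge (P : G → ℝ) (b t : ℝ) (hbt : 0 ≤ b + t) (y : G) : -b ≤ aa P b t y := by
  unfold aa
  rw [Real.le_log_iff_exp_le (clamp_pos _ _ _)]
  refine le_min (le_max_right _ _) ?_
  rw [Real.exp_le_exp]
  linarith

/-- Step 2: `E_P a ≥ ψ(t)`. -/
theorem step2 (P : G → ℝ) (hP : ∀ y, 0 ≤ P y) (b t : ℝ) :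
    psi P t ≤ ∑ y, P y * aa P b t y := by
  unfold psi
  apply Finset.sum_le_sum
  intro y _
  rcases (hP y).eq_or_lt with h | h
  · rw [← h, zero_mul, zero_mul]
  · apply mul_le_mul_of_nonneg_left _ (hP y)
    have hc : (0 : ℝ) < Fintype.card G := by
      have : 0 < Fintype.card G := Fintype.card_pos_iff.2 ⟨y⟩
      exact_mod_cast this
    have hr : 0 < (Fintype.card G : ℝ) * P y := mul_pos hc h
    unfold aa
    rw [Real.le_log_iff_exp_le (clamp_pos _ _ _)]
    refine le_min (le_trans ?_ (le_max_left _ _)) ?_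
    · rw [← Real.le_log_iff_exp_le hr]
      exact min_le_left _ _
    · rw [Real.exp_le_exp]
      exact min_le_right _ _

/-- The pointwise inequality of step 5. -/
theorem pt5 (r s u : ℝ) (hr : 0 ≤ r) (hu : u ≤ s + 1) :
    r * u - Real.exp (u - 1) ≤ r * min (Real.log r) s + r := by
  rcases hr.eq_or_lt with h | h
  · rw [← h, zero_mul, zero_mul, zero_sub, zero_add]
    have := Real.exp_pos (u - 1)
    linarith
  · rcases le_total (Real.log r) s with hs | hs
    · rw [min_eq_left hs]
      -- r u - e^(u-1) ≤ r log r + r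
      have h1 : (u - 1 - Real.log r) + 1 ≤ Real.exp (u - 1 - Real.log r) :=
        Real.add_one_le_exp _
      have h2 : Real.exp (u - 1 - Real.log r) * r = Real.exp (u - 1) := by
        rw [Real.exp_sub, Real.exp_log h]
        field_simp
      have h3 : r * ((u - 1 - Real.log r) + 1) ≤ r * Real.exp (u - 1 - Real.log r) :=
        mul_le_mul_of_nonneg_left h1 h.le
      have h4 : r * Real.exp (u - 1 - Real.log r) = Real.exp (u - 1) := by
        rw [mul_comm]; exact h2
      rw [h4] at h3
      have h5 : r * ((u - 1 - Real.log r) + 1) = r * u - r * Real.log r := by ring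
      rw [h5] at h3
      linarith
    · rw [min_eq_right hs]
      have h1 : r * u ≤ r * (s + 1) := mul_le_mul_of_nonneg_left hu h.le
      have := Real.exp_pos (u - 1)
      linarith

/-- Step 5, pointwise in `y`. -/
theorem pt5c (ν : G → ℝ) (hν : ∀ v, 0 ≤ ν v) (hν1 : ∑ v, ν v = 1) (r : G → ℝ)
    (hr : ∀ v, 0 ≤ r v) (s : ℝ) (y : G) :
    (∑ v, ν v * r (y - v)) * min (Real.log (∑ v, ν v * r (y - v))) s ≤
      ∑ v, ν v * (r (y - v) * min (Real.log (r (y - v))) s + r (y - v)) := by
  obtain ⟨m, hm⟩ : ∃ m, m = ∑ v, ν v * r (y - v) := ⟨_, rfl⟩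
  rw [← hm]
  have hm0 : 0 ≤ m := by
    rw [hm]; exact Finset.sum_nonneg fun v _ => mul_nonneg (hν v) (hr _)
  rcases hm0.eq_or_lt with h | h
  · rw [← h, zero_mul]
    have h1 : ∀ v ∈ Finset.univ, ν v * r (y - v) = 0 := by
      rw [← h] at hm
      exact (Finset.sum_eq_zero_iff_of_nonneg (fun v _ => mul_nonneg (hν v) (hr _))).1 hm.symm
    apply le_of_eq
    symm
    apply Finset.sum_eq_zero
    intro v hv
    have h2 := h1 v hv
    calc ν v * (r (y - v) * min (Real.log (r (y - v))) s + r (y - v))
        = (ν v * r (y - v)) * (min (Real.log (r (y - v))) s + 1) := by ring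
      _ = 0 := by rw [h2, zero_mul]
  · obtain ⟨u, hu⟩ : ∃ u, u = min (Real.log m) s + 1 := ⟨_, rfl⟩
    have hus : u ≤ s + 1 := by rw [hu]; linarith [min_le_right (Real.log m) s]
    have h1 : m * min (Real.log m) s ≤ m * u - Real.exp (u - 1) := by
      have e1 : m * u = m * min (Real.log m) s + m := by rw [hu]; ring
      have e2 : Real.exp (u - 1) ≤ m := by
        calc Real.exp (u - 1) ≤ Real.exp (Real.log m) := by
              rw [Real.exp_le_exp, hu]; linarith [min_le_left (Real.log m) s]
          _ = m := Real.exp_log h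
      linarith
    refine h1.trans ?_
    have h2 : m * u - Real.exp (u - 1) = ∑ v, ν v * (r (y - v) * u - Real.exp (u - 1)) := by
      have e1 : Real.exp (u - 1) = ∑ v, ν v * Real.exp (u - 1) := by
        rw [← Finset.sum_mul, hν1, one_mul]
      rw [hm, Finset.sum_mul]
      conv_lhs => rw [e1]
      rw [← Finset.sum_sub_distrib]
      apply Finset.sum_congr rfl
      intro v _
      ring
    rw [h2]
    apply Finset.sum_le_sum
    intro v _
    exact mul_le_mul_of_nonneg_left (pt5 _ s u (hr _) hus) (hν v)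

/-- Step 5. -/
theorem step5 (P ν : G → ℝ) (hP : ∀ y, 0 ≤ P y) (hP1 : ∑ y, P y = 1) (hν : ∀ v, 0 ≤ ν v)
    (hν1 : ∑ v, ν v = 1) (s : ℝ) :
    ∑ y, (∑ v, ν v * P (y - v)) * min (Real.log (Fintype.card G * ∑ v, ν v * P (y - v))) s ≤
      psi P s + 1 := by
  have hc : (0 : ℝ) < Fintype.card G := by
    have : 0 < Fintype.card G := by
      apply Fintype.card_pos_iff.2
      exact ⟨0⟩
    exact_mod_cast this
  have key : ∀ y : G, (∑ v, ν v * P (y - v)) *
      min (Real.log (Fintype.card G * ∑ v, ν v * P (y - v))) s ≤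
      ∑ v, ν v * (P (y - v) * min (Real.log (Fintype.card G * P (y - v))) s + P (y - v)) := by
    intro y
    have h := pt5c ν hν hν1 (fun v => Fintype.card G * P v) (fun v => mul_nonneg hc.le (hP v)) s y
    have e1 : ∑ v, ν v * (Fintype.card G * P (y - v)) = Fintype.card G * ∑ v, ν v * P (y - v) := by
      rw [Finset.mul_sum]
      apply Finset.sum_congr rfl
      intro v _
      ring
    simp only [e1] at h
    have e2 : ∑ v, ν v * (Fintype.card G * P (y - v) *
        min (Real.log (Fintype.card G * P (y - v))) s + Fintype.card G * P (y - v)) =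
        Fintype.card G * ∑ v, ν v * (P (y - v) *
        min (Real.log (Fintype.card G * P (y - v))) s + P (y - v)) := by
      rw [Finset.mul_sum]
      apply Finset.sum_congr rfl
      intro v _
      ring
    rw [e2, mul_assoc] at h
    exact le_of_mul_le_mul_left h hc
  refine (Finset.sum_le_sum (fun y _ => key y)).trans ?_
  rw [Finset.sum_comm]
  have e3 : ∀ v : G, ∑ y, ν v * (P (y - v) *
      min (Real.log (Fintype.card G * P (y - v))) s + P (y - v)) = ν v * (psi P s + 1) := by
    intro v
    rw [← Finset.mul_sum]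
    congr 1
    have := Fintype.sum_equiv (Equiv.subRight v)
      (fun y => P (y - v) * min (Real.log (Fintype.card G * P (y - v))) s + P (y - v))
      (fun y => P y * min (Real.log (Fintype.card G * P y)) s + P y) (fun y => rfl)
    rw [this, Finset.sum_add_distrib, hP1]
    rfl
  rw [Finset.sum_congr rfl (fun v _ => e3 v), ← Finset.sum_mul, hν1, one_mul]

/-- Step 6, pointwise (`w = |G| μ(y)`). -/
theorem pt6 (m f s K : ℝ) (hm : 0 ≤ m) (hf : f ≤ s - K) :
    m * f ≤ m * (min (Real.log m) s - K) + Real.exp (K + f) := by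
  have hpos := Real.exp_pos (K + f)
  rcases hm.eq_or_lt with h | h
  · rw [← h, zero_mul, zero_mul]
    linarith
  · rcases le_total (Real.log m) s with hs | hs
    · rw [min_eq_left hs]
      have h1 : (f + K - Real.log m) + 1 ≤ Real.exp (f + K - Real.log m) := Real.add_one_le_exp _
      have h2 : m * Real.exp (f + K - Real.log m) = Real.exp (K + f) := by
        rw [Real.exp_sub, Real.exp_log h, add_comm f K]
        field_simp
      have h3 : m * (f + K - Real.log m) ≤ m * Real.exp (f + K - Real.log m) :=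
        mul_le_mul_of_nonneg_left (by linarith) h.le
      rw [h2] at h3
      have h4 : m * (f + K - Real.log m) = m * f - m * (Real.log m - K) := by ring
      linarith
    · rw [min_eq_right hs]
      have h1 : m * f ≤ m * (s - K) := mul_le_mul_of_nonneg_left hf h.le
      linarith

/-- Step 6: the exponential average. -/
theorem step6_exp (P : G → ℝ) (hP : ∀ y, 0 ≤ P y) (hP1 : ∑ y, P y = 1) (b t : ℝ) (ht : 0 ≤ t)
    (x : G) :
    (∑ y, Real.exp (aa P b t y + aa P b t (x - y))) / Fintype.card G ≤
      SS P x + 2 * Real.exp (t - b) := by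
  have hc : (0 : ℝ) < Fintype.card G := by
    have : 0 < Fintype.card G := by
      apply Fintype.card_pos_iff.2
      exact ⟨0⟩
    exact_mod_cast this
  have hb1 : Real.exp (-b) ≤ Real.exp (t - b) := by
    rw [Real.exp_le_exp]; linarith
  have hcl : ∀ y, Real.exp (aa P b t y) ≤ Fintype.card G * P y + Real.exp (-b) := by
    intro y
    rw [exp_aa]
    refine (min_le_left _ _).trans (max_le ?_ ?_)
    · have := Real.exp_pos (-b); linarith
    · have := mul_nonneg hc.le (hP y); linarith
  have hcl2 : ∀ y, Real.exp (aa P b t y) ≤ Real.exp t := by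
    intro y
    rw [Real.exp_le_exp]; exact aa_le P b t y
  have hpt : ∀ y, Real.exp (aa P b t y + aa P b t (x - y)) ≤
      (Fintype.card G * P y) * (Fintype.card G * P (x - y)) +
        (Fintype.card G * P y) * Real.exp (-b) + Real.exp (t - b) := by
    intro y
    rw [Real.exp_add]
    have h1 : Real.exp (aa P b t y) * Real.exp (aa P b t (x - y)) ≤
        (Fintype.card G * P y + Real.exp (-b)) * Real.exp (aa P b t (x - y)) :=
      mul_le_mul_of_nonneg_right (hcl y) (Real.exp_pos _).le
    have h2 : (Fintype.card G * P y) * Real.exp (aa P b t (x - y)) ≤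
        (Fintype.card G * P y) * (Fintype.card G * P (x - y) + Real.exp (-b)) :=
      mul_le_mul_of_nonneg_left (hcl (x - y)) (mul_nonneg hc.le (hP y))
    have h3 : Real.exp (-b) * Real.exp (aa P b t (x - y)) ≤ Real.exp (-b) * Real.exp t :=
      mul_le_mul_of_nonneg_left (hcl2 (x - y)) (Real.exp_pos _).le
    have h4 : Real.exp (-b) * Real.exp t = Real.exp (t - b) := by
      rw [← Real.exp_add]; congr 1; ring
    have h5 : (Fintype.card G * P y + Real.exp (-b)) * Real.exp (aa P b t (x - y)) =
        (Fintype.card G * P y) * Real.exp (aa P b t (x - y)) +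
        Real.exp (-b) * Real.exp (aa P b t (x - y)) := by ring
    have h6 : (Fintype.card G * P y) * (Fintype.card G * P (x - y) + Real.exp (-b)) =
        (Fintype.card G * P y) * (Fintype.card G * P (x - y)) +
        (Fintype.card G * P y) * Real.exp (-b) := by ring
    linarith
  rw [div_le_iff₀ hc]
  refine (Finset.sum_le_sum (fun y _ => hpt y)).trans ?_
  rw [Finset.sum_add_distrib, Finset.sum_add_distrib, Finset.sum_const, Finset.card_univ,
    nsmul_eq_mul, ← Finset.sum_mul, ← Finset.mul_sum, hP1, mul_one]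
  have e1 : ∑ y, (Fintype.card G * P y) * (Fintype.card G * P (x - y)) =
      SS P x * Fintype.card G := by
    unfold SS
    rw [Finset.mul_sum, Finset.sum_mul]
    apply Finset.sum_congr rfl
    intro y _
    ring
  rw [e1]
  have h7 : (Fintype.card G : ℝ) * Real.exp (-b) ≤ Fintype.card G * Real.exp (t - b) :=
    mul_le_mul_of_nonneg_left hb1 hc.le
  linarith

/-- Steps 6 and 7: the lower bound for `S(x)`. `μ = ν * P`, `s = 2 t + K`, `b = t + K + 2`. -/
theorem step7 (P ν : G → ℝ) (hP : ∀ y, 0 ≤ P y) (hP1 : ∑ y, P y = 1) (hν : ∀ v, 0 ≤ ν v)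
    (hν1 : ∑ v, ν v = 1) (K t b δ : ℝ) (ht : 0 ≤ t) (x : G)
    (h1 : ∑ y, P y * aa P b t y - (t + b) * δ ≤ ∑ y, (∑ v, ν v * P (y - v)) * aa P b t y)
    (h2 : ∑ y, P y * aa P b t y - (t + b) * δ ≤ ∑ y, (∑ v, ν v * P (y - v)) * aa P b t (x - y)) :
    Real.exp (-K) * (2 * psi P t - psi P (2 * t + K) - 1 + K - 2 * (t + b) * δ) -
      2 * Real.exp (t - b) ≤ SS P x := by
  have hc : (0 : ℝ) < Fintype.card G := by
    have : 0 < Fintype.card G := by
      apply Fintype.card_pos_iff.2
      exact ⟨0⟩
    exact_mod_cast this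
  obtain ⟨μ, hμ⟩ : ∃ μ : G → ℝ, μ = fun y => ∑ v, ν v * P (y - v) := ⟨_, rfl⟩
  have hμ0 : ∀ y, 0 ≤ μ y := by
    intro y
    rw [hμ]
    exact Finset.sum_nonneg fun v _ => mul_nonneg (hν v) (hP _)
  have hμ1 : ∑ y, μ y = 1 := by
    rw [hμ]
    dsimp only
    rw [Finset.sum_comm]
    have e3 : ∀ v : G, ∑ y, ν v * P (y - v) = ν v := by
      intro v
      rw [← Finset.mul_sum]
      have := Fintype.sum_equiv (Equiv.subRight v) (fun y => P (y - v)) (fun y => P y)
        (fun y => rfl)
      rw [this, hP1, mul_one]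
    rw [Finset.sum_congr rfl (fun v _ => e3 v), hν1]
  have hs5 := step5 P ν hP hP1 hν hν1 (2 * t + K)
  have h1' : ∑ y, P y * aa P b t y - (t + b) * δ ≤ ∑ y, μ y * aa P b t y := by
    rw [hμ]; exact h1
  have h2' : ∑ y, P y * aa P b t y - (t + b) * δ ≤ ∑ y, μ y * aa P b t (x - y) := by
    rw [hμ]; exact h2
  have hs5' : ∑ y, μ y * min (Real.log (Fintype.card G * μ y)) (2 * t + K) ≤
      psi P (2 * t + K) + 1 := by
    rw [hμ]; exact hs5
  -- the Gibbs inequality
  have h3 : ∀ y, μ y * (aa P b t y + aa P b t (x - y)) ≤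
      μ y * min (Real.log (Fintype.card G * μ y)) (2 * t + K) - K * μ y +
        Real.exp K * (Real.exp (aa P b t y + aa P b t (x - y)) / Fintype.card G) := by
    intro y
    have hf : aa P b t y + aa P b t (x - y) ≤ (2 * t + K) - K := by
      have := aa_le P b t y
      have := aa_le P b t (x - y)
      linarith
    have h4 := pt6 (Fintype.card G * μ y) _ (2 * t + K) K (mul_nonneg hc.le (hμ0 y)) hf
    rw [Real.exp_add] at h4
    have h5 : (Fintype.card G : ℝ) * (μ y * (aa P b t y + aa P b t (x - y))) ≤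
        Fintype.card G * (μ y * min (Real.log (Fintype.card G * μ y)) (2 * t + K) - K * μ y +
        Real.exp K * (Real.exp (aa P b t y + aa P b t (x - y)) / Fintype.card G)) := by
      have e1 : (Fintype.card G : ℝ) * (μ y * min (Real.log (Fintype.card G * μ y)) (2 * t + K) -
          K * μ y + Real.exp K * (Real.exp (aa P b t y + aa P b t (x - y)) / Fintype.card G)) =
          Fintype.card G * μ y * (min (Real.log (Fintype.card G * μ y)) (2 * t + K) - K) +
          Real.exp K * Real.exp (aa P b t y + aa P b t (x - y)) := by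
        field_simp
      rw [e1, ← mul_assoc]
      exact h4
    exact le_of_mul_le_mul_left h5 hc
  have h6 := Finset.sum_le_sum (fun y (_ : y ∈ Finset.univ) => h3 y)
  rw [Finset.sum_add_distrib, Finset.sum_sub_distrib, ← Finset.mul_sum, hμ1, mul_one,
    ← Finset.mul_sum, ← Finset.sum_div] at h6
  simp only [mul_add] at h6
  rw [Finset.sum_add_distrib] at h6
  have h7 := step6_exp P hP hP1 b t ht x
  have h8 := step2 P hP b t
  have h9 : Real.exp K * ((∑ y, Real.exp (aa P b t y + aa P b t (x - y))) / Fintype.card G) ≤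
      Real.exp K * (SS P x + 2 * Real.exp (t - b)) :=
    mul_le_mul_of_nonneg_left h7 (Real.exp_pos _).le
  have h10 : 2 * psi P t - psi P (2 * t + K) - 1 + K - 2 * (t + b) * δ ≤
      Real.exp K * (SS P x + 2 * Real.exp (t - b)) := by
    linarith
  have h11 : Real.exp (-K) * (2 * psi P t - psi P (2 * t + K) - 1 + K - 2 * (t + b) * δ) ≤
      SS P x + 2 * Real.exp (t - b) := by
    calc Real.exp (-K) * (2 * psi P t - psi P (2 * t + K) - 1 + K - 2 * (t + b) * δ)
        ≤ Real.exp (-K) * (Real.exp K * (SS P x + 2 * Real.exp (t - b))) :=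
          mul_le_mul_of_nonneg_left h10 (Real.exp_pos _).le
      _ = SS P x + 2 * Real.exp (t - b) := by
          rw [← mul_assoc, ← Real.exp_add, neg_add_cancel, Real.exp_zero, one_mul]
  linarith

end Pool.H15.PP
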