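import Pool.Agent.H15.PP.An

set_option autoImplicit false

/-!
MP_169871: popular `2A - 2A` with exponent 2: the choice of the scale (step 1) and the final
numerical step.
-/

namespace Pool.H15.PP

open Finset

theorem sc_nat (j : ℕ) : 4 * (j + 1) ^ 2 ≤ 9 * 2 ^ j := by
  induction j with
  | zero => norm_num
  | succ j ih =>
    rcases Nat.lt_or_ge j 2 with h | h
    · interval_cases j <;> norm_num
    · have h1 : (j + 1 + 1) ^ 2 ≤ 2 * (j + 1) ^ 2 := by nlinarith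
      rw [pow_succ 2 j]
      omega

theorem sc_real (j : ℕ) : (16 : ℝ) / 9 ≤ 1 / (4 * ((j : ℝ) + 1) ^ 2) * (16 * 2 ^ j) := by
  have h : (4 * ((j : ℝ) + 1) ^ 2) ≤ 9 * 2 ^ j := by exact_mod_cast sc_nat j
  have h0 : (0 : ℝ) < 4 * ((j : ℝ) + 1) ^ 2 := by positivity
  rw [one_div, inv_mul_eq_div, le_div_iff₀ h0]
  linarith

/-- Step 1. -/
theorem scale (ψ : ℝ → ℝ) (L : ℝ) (hL : 0 ≤ L) (h0 : -1 ≤ ψ 0) (hψ : ∀ t, 0 ≤ t → ψ t ≤ L) :
    ∃ j : ℕ, (2 : ℝ) ^ j ≤ (L + 16) / 8 ∧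
      1 / (4 * ((j : ℝ) + 1) ^ 2) * (16 * 2 ^ j) ≤
        2 * ψ (16 * 2 ^ j - 16) - ψ (2 * (16 * 2 ^ j - 16) + 16) - 1 + 16 := by
  by_contra hcon
  push Not at hcon
  -- the first `J` with `2 ^ J > (L + 16) / 8`
  have hex : ∃ J : ℕ, (L + 16) / 8 < 2 ^ J := pow_unbounded_of_one_lt _ (by norm_num)
  classical
  obtain ⟨J, hJ, hJmin⟩ : ∃ J : ℕ, (L + 16) / 8 < 2 ^ J ∧ ∀ i < J, (2 : ℝ) ^ i ≤ (L + 16) / 8 :=
    ⟨Nat.find hex, Nat.find_spec hex, fun i hi => not_lt.1 (Nat.find_min hex hi)⟩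
  have key : ∀ j : ℕ, j ≤ J → 5 / 8 + 1 / (16 * 2 ^ j) + 1 / (4 * ((j : ℝ) + 1)) ≤
      (ψ (16 * 2 ^ j - 16) + 16) / (16 * 2 ^ j) := by
    intro j
    induction j with
    | zero =>
      intro _
      norm_num
      linarith
    | succ j ih =>
      intro hj
      have ih' := ih (by omega)
      have hc := hcon j (hJmin j (by omega))
      have hs : (0 : ℝ) < 16 * 2 ^ j := by positivity
      have e1 : (16 : ℝ) * 2 ^ (j + 1) - 16 = 2 * (16 * 2 ^ j - 16) + 16 := by ring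
      rw [e1]
      have e2 : (16 : ℝ) * 2 ^ (j + 1) = 2 * (16 * 2 ^ j) := by ring
      rw [e2]
      have hc2 : 2 * (ψ (16 * 2 ^ j - 16) + 16) - 1 - 1 / (4 * ((j : ℝ) + 1) ^ 2) * (16 * 2 ^ j) <
          ψ (2 * (16 * 2 ^ j - 16) + 16) + 16 := by linarith
      have hc3 : (2 * (ψ (16 * 2 ^ j - 16) + 16) - 1 -
          1 / (4 * ((j : ℝ) + 1) ^ 2) * (16 * 2 ^ j)) / (2 * (16 * 2 ^ j)) ≤
          (ψ (2 * (16 * 2 ^ j - 16) + 16) + 16) / (2 * (16 * 2 ^ j)) :=
        div_le_div_of_nonneg_right hc2.le (by positivity)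
      refine le_trans ?_ hc3
      have e3 : (2 * (ψ (16 * 2 ^ j - 16) + 16) - 1 -
          1 / (4 * ((j : ℝ) + 1) ^ 2) * (16 * 2 ^ j)) / (2 * (16 * 2 ^ j)) =
          (ψ (16 * 2 ^ j - 16) + 16) / (16 * 2 ^ j) - 1 / (2 * (16 * 2 ^ j)) -
          1 / (8 * ((j : ℝ) + 1) ^ 2) := by
        have hj1 : ((j : ℝ) + 1) ≠ 0 := by positivity
        field_simp
        ring
      rw [e3]
      have h4 : 1 / (4 * (((j + 1 : ℕ) : ℝ) + 1)) + 1 / (8 * ((j : ℝ) + 1) ^ 2) ≤
          1 / (4 * ((j : ℝ) + 1)) := by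
        push_cast
        have hj0 : (0 : ℝ) ≤ j := Nat.cast_nonneg j
        rw [div_add_div _ _ (by positivity) (by positivity), div_le_div_iff₀ (by positivity)
          (by positivity)]
        nlinarith [mul_nonneg hj0 hj0, mul_nonneg (mul_nonneg hj0 hj0) hj0]
      have h5 : 1 / (2 * (16 * 2 ^ j)) + 1 / (2 * (16 * 2 ^ j)) = 1 / (16 * (2 : ℝ) ^ j) := by
        field_simp
        norm_num
      linarith
  have h1 := key J le_rfl
  have hs : (0 : ℝ) < 16 * 2 ^ J := by positivity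
  have h1J : (1 : ℝ) ≤ 2 ^ J := one_le_pow₀ (by norm_num)
  have h2 : (ψ (16 * 2 ^ J - 16) + 16) / (16 * 2 ^ J) ≤ 1 / 2 := by
    rw [div_le_iff₀ hs]
    have := hψ (16 * 2 ^ J - 16) (by linarith)
    linarith
  have h3 : (0 : ℝ) < 1 / (16 * 2 ^ J) := by positivity
  have h4 : (0 : ℝ) < 1 / (4 * ((J : ℝ) + 1)) := by positivity
  linarith

variable {G : Type*} [Fintype G] [AddCommGroup G]

theorem psi_zero (P : G → ℝ) (hP : ∀ y, 0 ≤ P y) : -1 ≤ psi P 0 := by
  have hc : (0 : ℝ) < Fintype.card G := by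
    have : 0 < Fintype.card G := by
      apply Fintype.card_pos_iff.2
      exact ⟨0⟩
    exact_mod_cast this
  have hpt : ∀ y, -(1 / (Fintype.card G : ℝ)) ≤ P y * min (Real.log (Fintype.card G * P y)) 0 := by
    intro y
    rcases (hP y).eq_or_lt with h | h
    · rw [← h, zero_mul]
      have : 0 < 1 / (Fintype.card G : ℝ) := by positivity
      linarith
    · have hr : 0 < (Fintype.card G : ℝ) * P y := mul_pos hc h
      have h1 : -1 ≤ (Fintype.card G * P y) * min (Real.log (Fintype.card G * P y)) 0 := by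
        rcases le_total (Real.log (Fintype.card G * P y)) 0 with h2 | h2
        · rw [min_eq_left h2]
          have h3 := Real.log_le_sub_one_of_pos (inv_pos.2 hr)
          rw [Real.log_inv] at h3
          -- -log r ≤ 1/r - 1
          have h4 : (Fintype.card G * P y) * (-Real.log (Fintype.card G * P y)) ≤
              (Fintype.card G * P y) * ((Fintype.card G * P y)⁻¹ - 1) :=
            mul_le_mul_of_nonneg_left h3 hr.le
          have h5 : (Fintype.card G * P y) * ((Fintype.card G * P y)⁻¹ - 1) =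
              1 - Fintype.card G * P y := by
            rw [mul_sub, mul_inv_cancel₀ hr.ne', mul_one]
          rw [h5] at h4
          linarith
        · rw [min_eq_right h2]; linarith
      have h6 : (Fintype.card G : ℝ) * (-(1 / (Fintype.card G : ℝ))) ≤
          Fintype.card G * (P y * min (Real.log (Fintype.card G * P y)) 0) := by
        have e1 : (Fintype.card G : ℝ) * (-(1 / (Fintype.card G : ℝ))) = -1 := by
          field_simp
        rw [e1, ← mul_assoc]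
        exact h1
      exact le_of_mul_le_mul_left h6 hc
  have h := Finset.sum_le_sum (fun y (_ : y ∈ Finset.univ) => hpt y)
  rw [Finset.sum_const, Finset.card_univ, nsmul_eq_mul] at h
  have e1 : (Fintype.card G : ℝ) * (-(1 / (Fintype.card G : ℝ))) = -1 := by
    field_simp
  rw [e1] at h
  exact h

theorem psi_le (P : G → ℝ) (hP : ∀ y, 0 ≤ P y) (hP1 : ∑ y, P y = 1) (L : ℝ)
    (hr : ∀ y, (Fintype.card G : ℝ) * P y ≤ Real.exp L) (t : ℝ) : psi P t ≤ L := by
  have hc : (0 : ℝ) < Fintype.card G := by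
    have : 0 < Fintype.card G := by
      apply Fintype.card_pos_iff.2
      exact ⟨0⟩
    exact_mod_cast this
  have hpt : ∀ y, P y * min (Real.log (Fintype.card G * P y)) t ≤ P y * L := by
    intro y
    rcases (hP y).eq_or_lt with h | h
    · rw [← h, zero_mul, zero_mul]
    · apply mul_le_mul_of_nonneg_left _ (hP y)
      refine (min_le_left _ _).trans ?_
      rw [Real.log_le_iff_le_exp (mul_pos hc h)]
      exact hr y
  have h := Finset.sum_le_sum (fun y (_ : y ∈ Finset.univ) => hpt y)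
  rw [← Finset.sum_mul, hP1, one_mul] at h
  exact h

/-- Steps 1, 2, 5, 6, 7 together. For a probability `P` on `G` with `|G| P ≤ e^L` there is a scale
`j` with `2 ^ j ≤ (L + 16) / 8` such that, with `t = 16 * 2 ^ j - 16`, `b = t + 18`,
`δ = 1 / (64 (j + 1) ^ 2)`, any probability `ν` and any `x` for which the averages over
`μ = ν * P` of `a` and of `a (x - ·)` are at least `E_P a - (t + b) δ` have
`S(x) ≥ e^(-16)`. -/
theorem pop_main (P : G → ℝ) (hP : ∀ y, 0 ≤ P y) (hP1 : ∑ y, P y = 1) (L : ℝ) (hL : 0 ≤ L)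
    (hr : ∀ y, (Fintype.card G : ℝ) * P y ≤ Real.exp L) :
    ∃ j : ℕ, (2 : ℝ) ^ j ≤ (L + 16) / 8 ∧ ∀ t b δ : ℝ, t = 16 * 2 ^ j - 16 → b = t + 18 →
      δ = 1 / (64 * ((j : ℝ) + 1) ^ 2) → ∀ (ν : G → ℝ) (x : G), (∀ v, 0 ≤ ν v) →
      ∑ v, ν v = 1 →
      ∑ y, P y * aa P b t y - (t + b) * δ ≤ ∑ y, (∑ v, ν v * P (y - v)) * aa P b t y →
      ∑ y, P y * aa P b t y - (t + b) * δ ≤ ∑ y, (∑ v, ν v * P (y - v)) * aa P b t (x - y) →
      Real.exp (-16) ≤ SS P x := by
  obtain ⟨j, hj, hs⟩ := scale (psi P) L hL (psi_zero P hP) (fun t _ => psi_le P hP hP1 L hr t)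
  refine ⟨j, hj, ?_⟩
  intro t b δ ht hb hδ ν x hν hν1 h1 h2
  have h1j : (1 : ℝ) ≤ 2 ^ j := one_le_pow₀ (by norm_num)
  have ht0 : 0 ≤ t := by rw [ht]; linarith
  have h3 := step7 P ν hP hP1 hν hν1 16 t b δ ht0 x h1 h2
  refine le_trans ?_ h3
  obtain ⟨c, hc⟩ : ∃ c : ℝ, c = 1 / (4 * ((j : ℝ) + 1) ^ 2) * (16 * 2 ^ j) := ⟨_, rfl⟩
  have hc9 : (16 : ℝ) / 9 ≤ c := by rw [hc]; exact sc_real j
  rw [← ht, ← hc] at hs
  have h4 : 2 * (t + b) * δ ≤ c / 4 := by
    have e1 : t + b ≤ 2 * (16 * 2 ^ j) := by rw [hb, ht]; linarith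
    have hδ0 : 0 ≤ δ := by rw [hδ]; positivity
    calc 2 * (t + b) * δ ≤ 2 * (2 * (16 * 2 ^ j)) * δ := by
          apply mul_le_mul_of_nonneg_right _ hδ0
          linarith
      _ = c / 4 := by
          rw [hδ, hc]
          have hj1 : ((j : ℝ) + 1) ≠ 0 := by positivity
          field_simp
          norm_num
  have h5 : 4 / 3 ≤ 2 * psi P t - psi P (2 * t + 16) - 1 + 16 - 2 * (t + b) * δ := by linarith
  have h6 : 2 * Real.exp (t - b) ≤ Real.exp (-16) * (1 / 3) := by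
    have e1 : t - b = -16 + -2 := by rw [hb]; ring
    rw [e1, Real.exp_add]
    have e2 : Real.exp (-2) ≤ 1 / 6 := by
      rw [Real.exp_neg, ← one_div]
      apply one_div_le_one_div_of_le (by norm_num)
      have h7 : (2.5 : ℝ) ≤ Real.exp 1 := by
        have := Real.exp_one_gt_d9; linarith
      calc (6 : ℝ) ≤ 2.5 ^ 2 := by norm_num
        _ ≤ Real.exp 1 ^ 2 := pow_le_pow_left₀ (by norm_num) h7 2
        _ = Real.exp 2 := by rw [← Real.exp_nat_mul]; norm_num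
    have := Real.exp_pos (-16)
    nlinarith
  have h8 : Real.exp (-16) * (4 / 3) ≤ Real.exp (-16) *
      (2 * psi P t - psi P (2 * t + 16) - 1 + 16 - 2 * (t + b) * δ) :=
    mul_le_mul_of_nonneg_left h5 (Real.exp_pos _).le
  linarith

end Pool.H15.PP
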